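import Pool.Agent.Helper24.SPV.FREE

/-! # Module GS1 -/

set_option autoImplicit false

namespace Pool.Agent.Helper8.SPV

open AlgebraicGeometry CategoryTheory CategoryTheory.Limits Opposite

theorem GS1_field {k L : Type} [Field k] [IsAlgClosed k] [Field L] [Algebra k L]
    [Algebra.EssFiniteType k L] (h : Module.rank L (Ω[L⁄k]) = 1) : IsFF k L := by
  have hspan := KaehlerDifferential.span_range_derivation k L
  obtain ⟨x, hx⟩ : ∃ x : L, KaehlerDifferential.D k L x ≠ 0 := by
    by_contra hcon
    push Not at hcon
    have h1 : (⊤ : Submodule L (Ω[L⁄k])) = ⊥ := by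
      rw [← hspan, Submodule.span_eq_bot]
      rintro _ ⟨y, rfl⟩
      exact hcon y
    have h2 : Subsingleton (Ω[L⁄k]) := (Submodule.subsingleton_iff L).mp
      (subsingleton_of_bot_eq_top h1.symm)
    rw [rank_subsingleton'] at h
    exact zero_ne_one h
  have hfr : Module.finrank L (Ω[L⁄k]) = 1 := by
    rw [Module.finrank, h, Cardinal.one_toNat]
  have hall := (finrank_eq_one_iff_of_nonzero' _ hx).mp hfr
  refine ⟨x, ?_, ?_⟩
  · intro halg
    apply hx
    obtain ⟨c, hc⟩ : ∃ c : k, algebraMap k L c = x := by
      have h3 : IsIntegral k x := halg.isIntegral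
      have h4 := IsAlgClosed.degree_eq_one_of_irreducible k (minpoly.irreducible h3)
      exact minpoly.mem_range_of_degree_eq_one k x h4
    rw [← hc, Derivation.map_algebraMap]
  · have : Algebra.EssFiniteType (IntermediateField.adjoin k {x}) L :=
      Algebra.EssFiniteType.of_comp k _ L
    have h5 : Algebra.FormallyUnramified (IntermediateField.adjoin k {x}) L := by
      constructor
      have hspan2 := KaehlerDifferential.span_range_derivation (IntermediateField.adjoin k {x}) L
      have h6 : (⊤ : Submodule L (Ω[L⁄(IntermediateField.adjoin k {x})])) = ⊥ := by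
        rw [← hspan2, Submodule.span_eq_bot]
        rintro _ ⟨y, rfl⟩
        obtain ⟨c, hc⟩ := hall (KaehlerDifferential.D k L y)
        have h7 := KaehlerDifferential.map_D k (IntermediateField.adjoin k {x}) L L y
        have h8 := KaehlerDifferential.map_D k (IntermediateField.adjoin k {x}) L L x
        rw [← hc, LinearMap.map_smul] at h7
        have h9 : KaehlerDifferential.D (IntermediateField.adjoin k {x}) L (algebraMap L L x) =
            0 := by
          have h10 : algebraMap L L x = algebraMap (IntermediateField.adjoin k {x}) L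
            ⟨x, IntermediateField.mem_adjoin_simple_self k x⟩ := rfl
          rw [h10, Derivation.map_algebraMap]
        rw [h8, h9, smul_zero] at h7
        exact h7.symm
      exact (Submodule.subsingleton_iff L).mp (subsingleton_of_bot_eq_top h6.symm)
    exact Algebra.FormallyUnramified.finite_of_free (IntermediateField.adjoin k {x}) L

theorem GS1_rank {k B L : Type} [Field k] [CommRing B] [Field L]
    [Algebra k B] [Algebra k L] [Algebra B L] [IsScalarTower k B L] [IsFractionRing B L]
    [Nontrivial B] [Algebra.IsStandardSmoothOfRelativeDimension 1 k B] :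
    Module.rank L (Ω[L⁄k]) = 1 := by
  have h0 : Algebra.IsStandardSmooth k B :=
    Algebra.IsStandardSmoothOfRelativeDimension.isStandardSmooth 1
  have h1 := Algebra.IsStandardSmoothOfRelativeDimension.rank_kaehlerDifferential
    (R := k) (S := B) 1
  let b := Module.Free.chooseBasis B (Ω[B⁄k])
  let φ := KaehlerDifferential.map k k B L
  let bL := b.ofIsLocalizedModule L (nonZeroDivisors B) φ
  rw [← bL.mk_eq_rank'', b.mk_eq_rank'', h1, Nat.cast_one]

theorem GS1_core2 {k A B L : Type} [Field k] [IsAlgClosed k] [CommRing A] [IsDomain A]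
    [CommRing B] [Field L] [Algebra A B] [Algebra A L] [Algebra k L] [IsFractionRing A L]
    (φ : k →+* A) (hφ : ∀ c, algebraMap A L (φ c) = algebraMap k L c) (t : A) (ht0 : t ≠ 0)
    [IsLocalization.Away t B]
    (h : RingHom.IsStandardSmoothOfRelativeDimension 1 ((algebraMap A B).comp φ)) :
    IsFF k L := by
  let ikB : Algebra k B := ((algebraMap A B).comp φ).toAlgebra
  have hstd2 : Algebra.IsStandardSmoothOfRelativeDimension 1 k B := h
  have hpow : ∀ y : Submonoid.powers t, IsUnit (algebraMap A L y) := by
    rintro ⟨_, n, rfl⟩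
    have h2 : algebraMap A L t ≠ 0 := by
      rw [Ne, IsFractionRing.to_map_eq_zero_iff]
      exact ht0
    exact (IsUnit.mk0 _ (by rw [map_pow]; exact pow_ne_zero _ h2))
  let iBL : Algebra B L := (IsLocalization.lift (M := Submonoid.powers t) hpow).toAlgebra
  have h1 : IsScalarTower A B L := by
    refine IsScalarTower.of_algebraMap_eq fun c => ?_
    exact (IsLocalization.lift_eq (M := Submonoid.powers t) hpow c).symm
  have h2 : IsScalarTower k B L := by
    refine IsScalarTower.of_algebraMap_eq fun c => ?_
    rw [← hφ, IsScalarTower.algebraMap_apply A B L]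
    rfl
  have hFr2 : IsFractionRing B L :=
    IsFractionRing.isFractionRing_of_isDomain_of_isLocalization (Submonoid.powers t) B L
  have hnt : Nontrivial B := (algebraMap B L).domain_nontrivial
  have hsm3 : Algebra.IsStandardSmooth k B :=
    Algebra.IsStandardSmoothOfRelativeDimension.isStandardSmooth 1
  have h3 : Algebra.FiniteType k B := inferInstance
  have h4 : Algebra.EssFiniteType B L :=
    Algebra.EssFiniteType.of_isLocalization L (nonZeroDivisors B)
  have h5 : Algebra.EssFiniteType k L := Algebra.EssFiniteType.comp k B L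
  exact GS1_field (GS1_rank (B := B))

theorem GS1_core {k A L : Type} [Field k] [IsAlgClosed k] [CommRing A] [IsDomain A]
    [Field L] [Algebra A L] [Algebra k L] [IsFractionRing A L]
    (φ : k →+* A) (hφ : ∀ c, algebraMap A L (φ c) = algebraMap k L c)
    (h : RingHom.Locally (RingHom.IsStandardSmoothOfRelativeDimension 1) φ) :
    IsFF k L := by
  obtain ⟨s, hs, hall⟩ := h
  obtain ⟨t, hts, ht0⟩ : ∃ t ∈ s, t ≠ 0 := by
    by_contra hcon
    push Not at hcon
    have h1 : Ideal.span s = ⊥ := Ideal.span_eq_bot.mpr hcon
    rw [h1] at hs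
    exact bot_ne_top hs
  exact GS1_core2 (B := Localization.Away t) φ hφ t ht0 (hall t hts)

/-- the function field as an algebra over the sections -/
@[instance_reducible]
noncomputable def GS1_alg {k : Type} [Field k] {X : Scheme.{0}} [IsIntegral X]
    (s : X ⟶ Spec (.of k)) (V : X.Opens) [Nonempty V] : Algebra Γ(X, V) (FF s) :=
  inferInstanceAs (Algebra Γ(X, V) X.functionField)

theorem st_GS1 : ST_GS1 := by
  classical
  intro k _ _ _ C _ sC hC
  have hsm := hC.smooth
  obtain ⟨V, hV, hxV, -⟩ := exists_isAffineOpen_mem_and_subset (X := C) (x := genericPoint C)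
    (U := ⊤) trivial
  have hne : Nonempty V := ⟨⟨_, hxV⟩⟩
  have hloc : RingHom.Locally (RingHom.IsStandardSmoothOfRelativeDimension 1)
      (sC.appLE ⊤ V le_top).hom :=
    HasRingHomProperty.appLE (P := @SmoothOfRelativeDimension 1) sC hsm
      ⟨⊤, isAffineOpen_top _⟩ ⟨V, hV⟩ le_top
  have hloc2 : RingHom.Locally (RingHom.IsStandardSmoothOfRelativeDimension 1)
      (FREE_toΓ sC V) :=
    (RingHom.locally_respectsIso RingHom.isStandardSmoothOfRelativeDimension_respectsIso).2 _
      (Scheme.ΓSpecIso (.of k)).commRingCatIsoToRingEquiv.symm hloc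
  let iAL : Algebra Γ(C, V) (FF sC) := GS1_alg sC V
  have iFr : IsFractionRing Γ(C, V) (FF sC) := functionField_isFractionRing_of_isAffineOpen C V hV
  exact GS1_core (FREE_toΓ sC V) (fun c => FREE_germ sC V hxV c) hloc2

end Pool.Agent.Helper8.SPV
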