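import Pool.Agent.Helper24.SPV.FREE

/-! # Module GS2 -/

set_option autoImplicit false

namespace Pool.Agent.Helper8.SPV

open AlgebraicGeometry CategoryTheory CategoryTheory.Limits Opposite

theorem GS2_surj {k : Type} [Field k] (pt : Spec (.of k)) (a : (Spec (.of k)).presheaf.stalk pt) :
    ∃ c : k, a = (Spec (.of k)).presheaf.germ ⊤ pt trivial ((Scheme.ΓSpecIso (.of k)).inv c) := by
  let K' := (Spec.structureSheaf k).presheaf.stalk pt
  let e : k ≃ₐ[k] K' := IsLocalization.atUnits k pt.asIdeal.primeCompl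
    (fun x hx => by
      rw [IsUnit.mem_submonoid_iff, isUnit_iff_ne_zero]
      rintro rfl
      exact hx (zero_mem _))
  obtain ⟨c, hc⟩ := e.surjective a
  refine ⟨c, ?_⟩
  rw [← hc]
  have h1 : e c = algebraMap k K' c := (e.commutes c)
  rw [h1]
  rfl

/-- Algebra: a local domain `A` with fraction field `K`, a residue map to `k`. -/
theorem GS2_alg {k A K k' : Type} [Field k] [CommRing A] [IsLocalRing A] [Field K]
    [Algebra A K] [IsFractionRing A K] [Algebra k K] [CommRing k'] [Nontrivial k']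
    (φ : k →+* A) (hφ : ∀ c, algebraMap A K (φ c) = algebraMap k K c) (ψ : A →+* k')
    (hψ : ∀ a : k', ∃ c : k, a = ψ (φ c)) (hK : ∃ x : K, Transcendental k x) :
    ∃ p : Pl k K, ∀ f ∈ (algebraMap A K).range, f ∈ p.O ∧
      (f⁻¹ ∉ (algebraMap A K).range → p.M f) := by
  obtain ⟨R, hR⟩ := (LocalSubring.range (algebraMap A K)).exists_le_valuationSubring
  obtain ⟨hle, hloc⟩ := LocalSubring.le_def.mp hR
  have hinj : Function.Injective (algebraMap A K) := IsFractionRing.injective A K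
  -- units
  have hunit : ∀ a : A, a ≠ 0 → (algebraMap A K a)⁻¹ ∈ R → IsUnit a := by
    intro a ha haR
    have ha' : algebraMap A K a ≠ 0 := fun h0 => ha (hinj (by rw [h0, map_zero]))
    have hm : algebraMap A K a ∈ (LocalSubring.range (algebraMap A K)).toSubring := ⟨a, rfl⟩
    have h1 : IsUnit (Subring.inclusion hle ⟨algebraMap A K a, hm⟩) :=
      isUnit_iff_exists_inv.mpr ⟨⟨(algebraMap A K a)⁻¹, haR⟩, Subtype.ext (mul_inv_cancel₀ ha')⟩
    obtain ⟨⟨z, b, hb⟩, hz⟩ := isUnit_iff_exists_inv.mp (hloc.1 _ h1)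
    have h2 : algebraMap A K a * z = 1 := congrArg Subtype.val hz
    rw [← hb, ← map_mul, ← map_one (algebraMap A K)] at h2
    exact isUnit_iff_exists_inv.mpr ⟨b, hinj h2⟩
  have hmem : ∀ a : A, algebraMap A K a ∈ R := fun a => hle ⟨a, rfl⟩
  refine ⟨⟨R, fun c => ?_, ?_⟩, ?_⟩
  · rw [← hφ]
    exact hmem _
  · rintro rfl
    obtain ⟨x, hx⟩ := hK
    apply hx
    have hu : ∀ a : A, a ≠ 0 → IsUnit a := fun a ha => hunit a ha (ValuationSubring.mem_top _)
    have hres : ∀ a : A, ∃ c : k, a = φ c := by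
      intro a
      obtain ⟨c, hc⟩ := hψ (ψ a)
      refine ⟨c, ?_⟩
      by_contra hne
      have h3 := (hu (a - φ c) (sub_ne_zero.mpr hne)).map ψ
      rw [map_sub, hc, sub_self] at h3
      exact not_isUnit_zero h3
    obtain ⟨a, b, hb, rfl⟩ := IsFractionRing.div_surjective (A := A) x
    obtain ⟨c, rfl⟩ := hres a
    obtain ⟨d, rfl⟩ := hres b
    rw [hφ, hφ, ← map_div₀]
    exact isAlgebraic_algebraMap _
  · rintro _ ⟨a, rfl⟩
    refine ⟨hmem a, fun hninv => ⟨hmem a, ?_⟩⟩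
    by_cases ha : a = 0
    · left
      rw [ha, map_zero]
    · right
      intro hR2
      obtain ⟨b, hb⟩ := isUnit_iff_exists_inv.mp (hunit a ha hR2)
      apply hninv
      refine ⟨b, ?_⟩
      have ha' : algebraMap A K a ≠ 0 := fun h0 => ha (hinj (by rw [h0, map_zero]))
      have h9 : algebraMap A K a * algebraMap A K b = 1 := by rw [← map_mul, hb, map_one]
      rw [← mul_right_inj' ha', h9, mul_inv_cancel₀ ha']

theorem st_GS2 (h1 : ST_GS1) : ST_GS2 := by
  intro k _ _ _ C _ sC hC c hc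
  obtain ⟨x, hx, -⟩ := h1 k C sC hC
  have hne : Nonempty (⊤ : C.Opens) := ⟨⟨genericPoint C, trivial⟩⟩
  let iAK : Algebra (C.presheaf.stalk (cpt c)) (FF sC) := FREE_alg sC (cpt c)
  have : IsFractionRing (C.presheaf.stalk (cpt c)) (FF sC) :=
    inferInstanceAs (IsFractionRing (C.presheaf.stalk (cpt c)) C.functionField)
  let φ : k →+* C.presheaf.stalk (cpt c) :=
    (C.presheaf.germ ⊤ (cpt c) trivial).hom.comp (FREE_toΓ sC ⊤)
  have hφ : ∀ a : k, algebraMap (C.presheaf.stalk (cpt c)) (FF sC) (φ a) =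
      algebraMap k (FF sC) a := by
    intro a
    have h2 := Scheme.algebraMap_germ_eq_germToFunctionField C (U := ⊤)
      (x := cpt c) trivial (FREE_toΓ sC ⊤ a)
    exact h2.trans (FREE_germ sC ⊤ trivial a)
  have hloc : IsLocalRing (C.presheaf.stalk (cpt c)) := inferInstance
  have key := GS2_alg (k := k) (A := C.presheaf.stalk (cpt c)) (K := FF sC)
    (k' := (Spec (.of k)).presheaf.stalk (IsLocalRing.closedPoint k)) φ hφ
  refine key (c.stalkMap (IsLocalRing.closedPoint k)).hom ?_ ⟨x, hx⟩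
  intro a
  obtain ⟨b, hb⟩ := GS2_surj _ a
  refine ⟨b, ?_⟩
  rw [hb]
  have h3 := Scheme.Hom.germ_stalkMap_apply c ⊤ (IsLocalRing.closedPoint k) trivial
    (FREE_toΓ sC ⊤ b)
  refine Eq.trans ?_ h3.symm
  have h5 : sC.appTop ≫ c.appTop = 𝟙 _ := by
    rw [← Scheme.Hom.comp_appTop, hc]
    exact Scheme.Hom.id_appTop
  have h6 : FREE_toΓ sC ⊤ b = sC.appTop ((Scheme.ΓSpecIso (.of k)).inv b) := by
    have h7 : sC.appLE ⊤ ⊤ le_top = sC.appTop := Scheme.Hom.appLE_eq_app sC
    exact congrArg (fun f => f.hom ((Scheme.ΓSpecIso (.of k)).inv b)) h7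
  have h8 : c.appTop (sC.appTop ((Scheme.ΓSpecIso (.of k)).inv b)) =
      (Scheme.ΓSpecIso (.of k)).inv b :=
    congrArg (fun f => f.hom ((Scheme.ΓSpecIso (.of k)).inv b)) h5
  rw [h6]
  exact congrArg (fun y => (Spec (.of k)).presheaf.germ ⊤ (IsLocalRing.closedPoint k) trivial y)
    h8.symm

end Pool.Agent.Helper8.SPV
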